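import Pool.Agent.H81.SQ.Targets

/-!
# Part 2 with an arbitrary exponent

The label inequality with exponent `c`, and the two statements that follow from it.
-/

namespace Pool.Agent.H31.SQ

open Finset Pool.Agent.H36Sq Pool.Agent.H81.SQ
open scoped BigOperators ComplexConjugate

/-- The label inequality with exponent `c`. -/
def T_LIc (c : ℝ) : Prop :=
  ∀ (A : Type) [Fintype A] (k : ℕ) (p q r : A → ℝ) (τ : A → (Fin k → ZMod 2))
    (F : A → A → A → (Fin k → ZMod 2) → ℝ),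
    (∀ i, 0 ≤ p i) → ∑ i, p i = 1 → (∀ i, 0 ≤ q i) → ∑ i, q i = 1 →
    (∀ i, 0 ≤ r i) → ∑ i, r i = 1 → (∀ i j l m, 0 ≤ F i j l m ∧ F i j l m ≤ 1) →
    MM p q r F ^ c ≤ TM p q r τ F

/-- Density of squares with difference in a subspace of bounded index, exponent `c`. -/
def T_MAINHc (c : ℝ) : Prop :=
  ∀ α ε : ℝ, 0 < α → 0 < ε → ∃ n₁ : ℕ,
    ∀ (G : Type) [AddCommGroup G] [Module (ZMod 2) G] [Fintype G] (f : G → G → ℝ),
      (∀ x y, 0 ≤ f x y ∧ f x y ≤ 1) → α ≤ 𝔼 x : G, 𝔼 y : G, f x y →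
      ∃ H : Submodule (ZMod 2) G, idx H ≤ n₁ ∧ α ^ c - ε ≤ TH H f f f f

end Pool.Agent.H31.SQ
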