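import Pool.Agent.H31.SQ.DefsC

/-!
# FIN with an arbitrary exponent
-/

namespace Pool.Agent.H31.SQ

open Finset Pool.Agent.H36Sq Pool.Agent.H81.SQ
open scoped BigOperators ComplexConjugate

theorem finc (c : ℝ) (h : T_MAINHc c) : ValidExponent c := by
  classical
  unfold ValidExponent
  refine ⟨1 / 2, by norm_num, ?_⟩
  intro α hα hα1
  have ha16 : (0 : ℝ) < α ^ c := by positivity
  obtain ⟨n1, hn1⟩ := h α (α ^ c / 4) hα (by positivity)
  obtain ⟨n0, hn0⟩ := pow_unbounded_of_one_lt (4 * (n1 : ℝ) / α ^ c + 1)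
    (by norm_num : (1 : ℝ) < 2)
  refine ⟨n0, ?_⟩
  intro n _ hn A hA
  have hcardG : (Fintype.card (Fin n → ZMod 2) : ℝ) = 2 ^ n := by
    simp [ZMod.card]
  set f : (Fin n → ZMod 2) → (Fin n → ZMod 2) → ℝ := fun x y => if (x, y) ∈ A then 1 else 0 with hf_def
  have hf : ∀ x y, 0 ≤ f x y ∧ f x y ≤ 1 := by
    intro x y
    simp only [hf_def]
    split <;> norm_num
  have h2n : (0 : ℝ) < 2 ^ n := by positivity
  have hEf : 𝔼 x : (Fin n → ZMod 2), 𝔼 y : (Fin n → ZMod 2), f x y = (A.card : ℝ) / ((2 : ℝ) ^ n) ^ 2 := by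
    rw [Fintype.expect_eq_sum_div_card]
    simp_rw [Fintype.expect_eq_sum_div_card]
    rw [← Finset.sum_div, hcardG, div_div, ← sq]
    congr 1
    rw [← Fintype.sum_prod_type (fun p : (Fin n → ZMod 2) × (Fin n → ZMod 2) => f p.1 p.2)]
    simp only [hf_def]
    simp
  have hαf : α ≤ 𝔼 x : (Fin n → ZMod 2), 𝔼 y : (Fin n → ZMod 2), f x y := by
    rw [hEf, le_div_iff₀ (by positivity)]
    exact hA
  obtain ⟨H, hH1, hH2⟩ := hn1 (Fin n → ZMod 2) f hf hαf
  by_contra hcon
  push Not at hcon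
  -- local counts
  have hQ : ∀ d : (Fin n → ZMod 2), 𝔼 x : (Fin n → ZMod 2), 𝔼 y : (Fin n → ZMod 2), f x y * f (x + d) y * f x (y + d) * f (x + d) (y + d) =
      (squareCount A d : ℝ) / ((2 : ℝ) ^ n) ^ 2 := by
    intro d
    rw [Fintype.expect_eq_sum_div_card]
    simp_rw [Fintype.expect_eq_sum_div_card]
    rw [← Finset.sum_div, hcardG, div_div, ← sq]
    congr 1
    rw [← Fintype.sum_prod_type (fun p : (Fin n → ZMod 2) × (Fin n → ZMod 2) => f p.1 p.2 * f (p.1 + d) p.2 *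
      f p.1 (p.2 + d) * f (p.1 + d) (p.2 + d))]
    unfold squareCount
    rw [Finset.card_filter]
    push_cast
    apply Finset.sum_congr rfl
    rintro ⟨x, y⟩ _
    simp only [hf_def]
    by_cases h1 : (x, y) ∈ A <;> by_cases h2 : (x + d, y) ∈ A <;>
      by_cases h3 : (x, y + d) ∈ A <;> by_cases h4 : (x + d, y + d) ∈ A <;> simp [h1, h2, h3, h4]
  have hTH : TH H f f f f = 𝔼 d : H, (squareCount A (d : (Fin n → ZMod 2)) : ℝ) / ((2 : ℝ) ^ n) ^ 2 := by
    unfold TH
    exact Finset.expect_congr rfl (fun d _ => hQ d)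
  have hHpos : (0 : ℝ) < Fintype.card H := by exact_mod_cast Fintype.card_pos
  have hbound : TH H f f f f ≤ 1 / (Fintype.card H : ℝ) + 1 / 2 * α ^ c := by
    rw [hTH]
    have h1 : ∀ d : H, (squareCount A (d : (Fin n → ZMod 2)) : ℝ) / ((2 : ℝ) ^ n) ^ 2 ≤
        (if d = 0 then (1 : ℝ) else 0) + 1 / 2 * α ^ c := by
      intro d
      by_cases hd : d = 0
      · subst hd
        have h3 : squareCount A ((0 : H) : (Fin n → ZMod 2)) ≤ Fintype.card ((Fin n → ZMod 2) × (Fin n → ZMod 2)) := Finset.card_le_univ _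
        have h4 : (Fintype.card ((Fin n → ZMod 2) × (Fin n → ZMod 2)) : ℝ) = ((2 : ℝ) ^ n) ^ 2 := by
          rw [Fintype.card_prod]; push_cast; rw [hcardG]; ring
        have h5 : (squareCount A ((0 : H) : (Fin n → ZMod 2)) : ℝ) ≤ ((2 : ℝ) ^ n) ^ 2 := by
          rw [← h4]; exact_mod_cast h3
        have h6 : (squareCount A ((0 : H) : (Fin n → ZMod 2)) : ℝ) / ((2 : ℝ) ^ n) ^ 2 ≤ 1 :=
          (div_le_one (by positivity)).mpr h5
        simp only [if_true]
        linarith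
      · have hd' : (d : (Fin n → ZMod 2)) ≠ 0 := by
          intro h; exact hd (Subtype.ext h)
        have h2 := hcon (d : (Fin n → ZMod 2)) hd'
        rw [if_neg hd, div_le_iff₀ (by positivity)]
        linarith
    refine le_trans (Finset.expect_le_expect (fun d _ => h1 d)) ?_
    rw [Finset.expect_add_distrib, Finset.expect_const univ_nonempty]
    apply le_of_eq
    congr 1
    rw [Fintype.expect_eq_sum_div_card, Finset.sum_eq_single (0 : H)]
    · simp
    · intro b _ hb; simp [hb]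
    · intro h0; exact absurd (Finset.mem_univ _) h0
  have hsmall : 1 / (Fintype.card H : ℝ) < α ^ c / 4 := by
    have h1 : (Fintype.card (Fin n → ZMod 2) : ℝ) / (Fintype.card H : ℝ) ≤ n1 := hH1
    rw [div_le_iff₀ hHpos, hcardG] at h1
    have h2 : (2 : ℝ) ^ n0 ≤ 2 ^ n := pow_le_pow_right₀ (by norm_num) hn
    have h3 : 4 * (n1 : ℝ) / α ^ c + 1 < 2 ^ n := lt_of_lt_of_le hn0 h2
    have h4 : 4 * (n1 : ℝ) < 2 ^ n * α ^ c := by
      have : 4 * (n1 : ℝ) / α ^ c < 2 ^ n := by linarith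
      rwa [div_lt_iff₀ ha16] at this
    have hn1pos : (0 : ℝ) < n1 := by
      rcases Nat.eq_zero_or_pos n1 with h0 | h0
      · exfalso
        rw [h0] at h1
        simp at h1
        linarith
      · exact_mod_cast h0
    rw [div_lt_iff₀ hHpos]
    have h5 : (4 * (n1 : ℝ)) < (n1 * Fintype.card H) * α ^ c :=
      lt_of_lt_of_le h4 (mul_le_mul_of_nonneg_right h1 ha16.le)
    have h6 : (4 : ℝ) < Fintype.card H * α ^ c := by
      have : (n1 : ℝ) * 4 < n1 * (Fintype.card H * α ^ c) := by linarith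
      exact lt_of_mul_lt_mul_left this hn1pos.le
    linarith
  linarith

end Pool.Agent.H31.SQ
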