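import Pool.Agent.H31.SQ.DefsC
import Pool.Agent.H81.SQ.MainH

/-!
# MAINH with an arbitrary exponent
-/

namespace Pool.Agent.H31.SQ

open Finset Pool.Agent.H36Sq Pool.Agent.H81.SQ Pool.Agent.H81.SQ.MainHAux
open scoped BigOperators ComplexConjugate

theorem rpow_expect_le {I : Type} [Fintype I] [Nonempty I] {c : ℝ} (hc : 1 ≤ c) (t : I → ℝ)
    (ht : ∀ i, 0 ≤ t i) : (𝔼 i, t i) ^ c ≤ 𝔼 i, t i ^ c := by
  have hI : (0 : ℝ) < Fintype.card I := by exact_mod_cast Fintype.card_pos
  have h := Real.rpow_arith_mean_le_arith_mean_rpow (Finset.univ : Finset I)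
    (fun _ => (1 : ℝ) / Fintype.card I) t (fun i _ => by positivity)
    (by simp [Finset.card_univ, hI.ne']) (fun i _ => ht i) hc
  rw [Fintype.expect_eq_sum_div_card, Fintype.expect_eq_sum_div_card]
  have e1 : ∑ i, 1 / (Fintype.card I : ℝ) * t i = (∑ i, t i) / Fintype.card I := by
    rw [← Finset.mul_sum]; ring
  have e2 : ∑ i, 1 / (Fintype.card I : ℝ) * t i ^ c = (∑ i, t i ^ c) / Fintype.card I := by
    rw [← Finset.mul_sum]; ring
  rw [e1, e2] at h
  exact h

theorem rpow_two {G : Type} [Fintype G] [Nonempty G] {c : ℝ} (hc : 1 ≤ c) (t : G → G → ℝ)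
    (ht : ∀ x y, 0 ≤ t x y) :
    (𝔼 x, 𝔼 y, t x y) ^ c ≤ 𝔼 x, 𝔼 y, t x y ^ c := by
  refine le_trans (rpow_expect_le hc (fun x => 𝔼 y, t x y)
    (fun x => Finset.expect_nonneg (fun y _ => ht x y))) ?_
  exact Finset.expect_le_expect (fun x _ => rpow_expect_le hc (t x) (ht x))

theorem rpow_lip {c : ℝ} (hc : 1 ≤ c) {a b : ℝ} (ha : 0 ≤ a) (hab : a ≤ b) (hb : b ≤ 1) :
    b ^ c - a ^ c ≤ c * (b - a) := by
  rcases eq_or_lt_of_le (le_trans ha hab) with h0 | h0
  · have hb0 : b = 0 := h0.symm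
    have ha0 : a = 0 := le_antisymm (by linarith) ha
    subst hb0
    rw [ha0]; simp
  · have h1 : -1 ≤ a / b - 1 := by
      have : 0 ≤ a / b := div_nonneg ha h0.le
      linarith
    have h2 := one_add_mul_self_le_rpow_one_add h1 hc
    have h3 : 1 + (a / b - 1) = a / b := by ring
    rw [h3, Real.div_rpow ha h0.le, le_div_iff₀ (Real.rpow_pos_of_pos h0 c)] at h2
    have h4 : b ^ c ≤ b := by
      have := Real.rpow_le_rpow_of_exponent_ge h0 hb hc
      simpa using this
    have h5 : 0 ≤ c * (1 - a / b) := by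
      apply mul_nonneg (by linarith)
      have : a / b ≤ 1 := (div_le_one h0).mpr hab
      linarith
    have h6 : b ^ c - a ^ c ≤ b ^ c * (c * (1 - a / b)) := by nlinarith
    have h7 : b ^ c * (c * (1 - a / b)) ≤ b * (c * (1 - a / b)) :=
      mul_le_mul_of_nonneg_right h4 h5
    have h8 : b * (c * (1 - a / b)) = c * (b - a) := by
      field_simp
    linarith

theorem mainhc (hREG : T_REG) (hFRS : T_FRS) (hREPL : T_REPL) (hCEF : T_CEF) (hCNT : T_CNT)
    (hCNT1 : T_CNT1) (c : ℝ) (hc1 : 1 ≤ c) (hLI : T_LIc c) (hLOC : T_LOC) : T_MAINHc c := by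
  classical
  intro α ε hα hε
  -- parameters
  set e : ℝ := min (ε / (10 + c)) 1 with he_def
  have he : 0 < e := lt_min (by positivity) one_pos
  have he1 : e ≤ 1 := min_le_right _ _
  have heε : (10 + c) * e ≤ ε := by
    have h1 : e ≤ ε / (10 + c) := min_le_left _ _
    rwa [le_div_iff₀ (by linarith), mul_comm] at h1
  have hCCpos : ∀ n, 0 < CC n := fun n => lt_of_lt_of_le one_pos (CC_ge n)
  set μ : ℕ → ℝ := fun n => e / (2 * CC n) with hμ_def
  set ρ : ℕ → ℝ := fun n => e / (12 * CC n) with hρ_def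
  have hμ : ∀ n, 0 < μ n := fun n => by
    have := hCCpos n
    simp only [hμ_def]; positivity
  have hρ : ∀ n, 0 < ρ n := fun n => by
    have := hCCpos n
    simp only [hρ_def]; positivity
  have hμρ : ∀ n, CC n * (μ n + 6 * ρ n) = e := by
    intro n
    have := (hCCpos n).ne'
    simp only [hμ_def, hρ_def]
    field_simp
    norm_num
  have hρ2 : ∀ n, 3 * ρ n ^ 2 ≤ e := by
    intro n
    have h1 : ρ n ≤ e / 12 := by
      simp only [hρ_def]
      apply div_le_div_of_nonneg_left he.le (by norm_num)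
      have := CC_ge n
      linarith
    have h0 := (hρ n).le
    nlinarith
  -- bounds for the index
  have hF : ∀ n K : ℕ, ∃ n₁ : ℕ,
      ∀ (G : Type) [AddCommGroup G] [Module (ZMod 2) G] [Fintype G] (lam : G → Fin K),
        ∃ H : Submodule (ZMod 2) G, idx H ≤ n₁ ∧
          (Nat.card {x₀ : G // ¬ Good H lam (ρ n ^ 2) x₀} : ℝ) ≤ ρ n ^ 2 * Fintype.card G :=
    fun n K => hFRS K (ρ n ^ 2) (pow_pos (hρ n) 2)
  choose N1 hN1 using hF
  set n1 : ℕ → ℕ := fun n => ∑ j ∈ range (n + 1), N1 n j with hn1_def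
  have hn1 : ∀ n j, j ≤ n → N1 n j ≤ n1 n := by
    intro n j hj
    exact Finset.single_le_sum (f := fun j => N1 n j) (fun _ _ => Nat.zero_le _)
      (mem_range.mpr (by omega))
  set ν : ℕ → ℝ := fun n => μ n ^ 4 / ((n1 n : ℝ) + 1) ^ 8 with hν_def
  set η : ℕ → ℝ := fun n => e ^ 8 / ((n1 n : ℝ) + 1) ^ 16 with hη_def
  have hn1pos : ∀ n, (0 : ℝ) < (n1 n : ℝ) + 1 := fun n => by positivity
  have hν : ∀ n, 0 < ν n := fun n => by
    have h1 := hμ n
    have h2 := hn1pos n
    simp only [hν_def]; positivity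
  have hη : ∀ n, 0 < η n := fun n => by
    have h2 := hn1pos n
    simp only [hη_def]; positivity
  obtain ⟨C0, hC0⟩ := hREG e η ν he hη hν
  refine ⟨∑ n ∈ range (C0 + 1), n1 n, ?_⟩
  intro G _ _ _ f hf hαf
  obtain ⟨B, B', hRef, hcx, hTC, hHR, hL2, hU8⟩ := hC0 G f hf
  set n := B.cx with hn_def
  have hKn : B.K ≤ n := by
    simp only [hn_def, Fac.cx]; omega
  have hKkn : B.K + B.k ≤ n := by
    simp only [hn_def, Fac.cx]; exact le_rfl
  obtain ⟨H, hH1, hH2⟩ := hN1 n B.K G B.lam
  have hidx : idx H ≤ (n1 n : ℝ) := le_trans hH1 (by exact_mod_cast hn1 n B.K hKn)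
  have hidx0 : 0 ≤ idx H := by unfold idx; positivity
  refine ⟨H, ?_, ?_⟩
  · refine le_trans hidx ?_
    have : n1 n ≤ ∑ m ∈ range (C0 + 1), n1 m :=
      Finset.single_le_sum (f := fun m => n1 m) (fun _ _ => Nat.zero_le _)
        (mem_range.mpr (by omega))
    exact_mod_cast this
  -- conditional expectations
  have hBB : B.Ref B := fun x y x' y' h => h
  have hBB' : B'.Ref B' := fun x y x' y' h => h
  obtain ⟨c1, ⟨F, hF1, hF2⟩, c3, -, -, -, -⟩ := hCEF G B B f hBB hf
  obtain ⟨c1', -, -, -, -, -, -⟩ := hCEF G B' B' f hBB' hf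
  set f₁ : G → G → ℝ := B.ce f with hf₁_def
  -- replacing
  have hrep : |TH H f f f f - TH H f₁ f₁ f₁ f₁| ≤ 4 * (e + e) := by
    apply hREPL G H f (B'.ce f) f₁ e e he.le he.le hf c1' c1 hL2
    have h16 : idx H ^ 16 ≤ ((n1 n : ℝ) + 1) ^ 16 :=
      pow_le_pow_left₀ hidx0 (by linarith) 16
    have hU0 : 0 ≤ U8 (fun x y => ((f x y - B'.ce f x y : ℝ) : ℂ)) := by
      unfold U8
      exact Finset.expect_nonneg (fun _ _ => Finset.expect_nonneg (fun _ _ =>
        Finset.expect_nonneg (fun _ _ => by positivity)))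
    calc idx H ^ 16 * U8 (fun x y => ((f x y - B'.ce f x y : ℝ) : ℂ))
        ≤ ((n1 n : ℝ) + 1) ^ 16 * η n := mul_le_mul h16 hU8 hU0 (by positivity)
      _ = e ^ 8 := by
          simp only [hη_def]
          have := (hn1pos n).ne'
          field_simp
  -- local inequality
  have hν' : idx H ^ 8 * ν n ≤ μ n ^ 4 := by
    have h8 : idx H ^ 8 ≤ ((n1 n : ℝ) + 1) ^ 8 := pow_le_pow_left₀ hidx0 (by linarith) 8
    calc idx H ^ 8 * ν n ≤ ((n1 n : ℝ) + 1) ^ 8 * ν n :=
          mul_le_mul_of_nonneg_right h8 (hν n).le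
      _ = μ n ^ 4 := by
          simp only [hν_def]
          have := (hn1pos n).ne'
          field_simp
  -- the function tau
  have hτ : ∃ τ : Fin B.K → (Fin B.k → ZMod 2), ∀ x i, τ (B.lam x) i = B.M i x x := by
    refine ⟨fun l i => if h : ∃ x, B.lam x = l then B.M i h.choose h.choose else 0, ?_⟩
    intro x i
    have h : ∃ x', B.lam x' = B.lam x := ⟨x, rfl⟩
    simp only [h, dif_pos]
    exact hTC _ _ h.choose_spec i
  obtain ⟨τ, hτ⟩ := hτ
  set P : G → Prop := Good H B.lam (ρ n ^ 2) with hP_def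
  have hML : ∀ x y, 0 ≤ ML H f₁ x y ∧ ML H f₁ x y ≤ 1 := by
    intro x y
    unfold ML
    refine ⟨Finset.expect_nonneg (fun _ _ => Finset.expect_nonneg (fun _ _ => (c1 _ _).1)), ?_⟩
    apply Finset.expect_le (univ_nonempty)
    intro h _
    apply Finset.expect_le (univ_nonempty)
    intro k _
    exact (c1 _ _).2
  have hTL0 : ∀ x y, 0 ≤ TL H f₁ x y := by
    intro x y
    unfold TL
    refine Finset.expect_nonneg (fun _ _ => Finset.expect_nonneg (fun _ _ =>
      Finset.expect_nonneg (fun _ _ => ?_)))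
    exact mul_nonneg (mul_nonneg (mul_nonneg (c1 _ _).1 (c1 _ _).1) (c1 _ _).1) (c1 _ _).1
  have hloc : ∀ x y, ML H f₁ x y ^ c - (1 + c) * e - (bad P x + bad P y + bad P (x + y)) ≤
      TL H f₁ x y := by
    intro x y
    by_cases hx : P x ∧ P y ∧ P (x + y)
    · obtain ⟨hx1, hx2, hx3⟩ := hx
      have b0 : bad P x + bad P y + bad P (x + y) = 0 := by
        simp [bad, hx1, hx2, hx3]
      rw [b0]
      have hc := hCNT G B H f₁ F τ (ν n) (μ n) (ρ n) x y (hμ n).le (hρ n).le hν' hHR hτ hF1 hF2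
        hx1 hx2 hx3
      have hcc1 := hCNT1 G B H f₁ F (ν n) (μ n) (ρ n) x y (hμ n).le (hρ n).le hν' hHR hF1 hF2
        hx1 hx2 hx3
      have hd := hLOC G H f₁
      obtain ⟨-, -, hdens⟩ := hd
      have hli := hLI (Fin B.K) B.k (dens H B.lam x) (dens H B.lam y) (dens H B.lam (x + y)) τ F
        (hdens _ B.lam x).1 (hdens _ B.lam x).2 (hdens _ B.lam y).1 (hdens _ B.lam y).2
        (hdens _ B.lam (x + y)).1 (hdens _ B.lam (x + y)).2 hF1
      have hpos : 0 ≤ μ n + 6 * ρ n := by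
        have := hμ n
        have := hρ n
        positivity
      have e6 : (B.K : ℝ) ^ 6 * 2 ^ (4 * B.k) * (μ n + 6 * ρ n) ≤ e := by
        rw [← hμρ n]
        exact mul_le_mul_of_nonneg_right (CC_bound6 hKkn) hpos
      have e3 : (B.K : ℝ) ^ 3 * 2 ^ B.k * (μ n + 6 * ρ n) ≤ e := by
        rw [← hμρ n]
        exact mul_le_mul_of_nonneg_right (CC_bound3 hKkn) hpos
      have hc' := abs_le.mp (le_trans hc e6)
      have hc1' := abs_le.mp (le_trans hcc1 e3)
      set mm := MM (dens H B.lam x) (dens H B.lam y) (dens H B.lam (x + y)) F with hmm_def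
      set ml := ML H f₁ x y with hml_def
      have hmm0 : 0 ≤ mm := by
        rw [hmm_def]; unfold MM
        refine Finset.sum_nonneg (fun X _ => Finset.sum_nonneg (fun Y _ =>
          Finset.sum_nonneg (fun Z _ => ?_)))
        have h1 := (hdens _ B.lam x).1 X
        have h2 := (hdens _ B.lam y).1 Y
        have h3 := (hdens _ B.lam (x + y)).1 Z
        have h4 : 0 ≤ 𝔼 m : Fin B.k → ZMod 2, F X Y Z m :=
          Finset.expect_nonneg (fun m _ => (hF1 X Y Z m).1)
        positivity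
      have hml0 : 0 ≤ ml ∧ ml ≤ 1 := hML x y
      have hpow : ml ^ c - c * e ≤ mm ^ c := by
        rcases le_total ml mm with h | h
        · have h5 := Real.rpow_le_rpow hml0.1 h (by linarith : (0:ℝ) ≤ c)
          have h6 : 0 ≤ c * e := by positivity
          linarith
        · have h5 := rpow_lip hc1 hmm0 h hml0.2
          have h6 : c * (ml - mm) ≤ c * e := by
            apply mul_le_mul_of_nonneg_left _ (by linarith)
            linarith [hc1'.2]
          linarith
      linarith [hc'.1]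
    · have b1 : 1 ≤ bad P x + bad P y + bad P (x + y) := by
        have n1 := bad_nonneg P x
        have n2 := bad_nonneg P y
        have n3 := bad_nonneg P (x + y)
        by_cases h1 : P x
        · by_cases h2 : P y
          · have h3 : ¬ P (x + y) := fun h3 => hx ⟨h1, h2, h3⟩
            have : bad P (x + y) = 1 := by simp [bad, h3]
            linarith
          · have : bad P y = 1 := by simp [bad, h2]
            linarith
        · have : bad P x = 1 := by simp [bad, h1]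
          linarith
      have h16 : ML H f₁ x y ^ c ≤ 1 := Real.rpow_le_one (hML x y).1 (hML x y).2 (by linarith)
      have h17 : 0 ≤ (1 + c) * e := by positivity
      have := hTL0 x y
      linarith
  -- averaging
  obtain ⟨hTH, hMLav, -⟩ := hLOC G H f₁
  have hbad : 𝔼 x : G, bad P x ≤ ρ n ^ 2 := expect_bad P _ hH2
  have hbad3 : 𝔼 x : G, 𝔼 y : G, (bad P x + bad P y + bad P (x + y)) ≤ e := by
    have h1 : ∀ x : G, 𝔼 y : G, (bad P x + bad P y + bad P (x + y)) ≤
        bad P x + ρ n ^ 2 + ρ n ^ 2 := by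
      intro x
      rw [Finset.expect_add_distrib, Finset.expect_add_distrib,
        Finset.expect_const univ_nonempty]
      have h2 : 𝔼 y : G, bad P (x + y) = 𝔼 y : G, bad P y :=
        Fintype.expect_equiv (Equiv.addLeft x) _ _ (fun y => rfl)
      rw [h2]
      linarith
    calc 𝔼 x : G, 𝔼 y : G, (bad P x + bad P y + bad P (x + y))
        ≤ 𝔼 x : G, (bad P x + ρ n ^ 2 + ρ n ^ 2) := Finset.expect_le_expect (fun x _ => h1 x)
      _ = (𝔼 x : G, bad P x) + ρ n ^ 2 + ρ n ^ 2 := by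
          rw [Finset.expect_add_distrib, Finset.expect_add_distrib,
            Finset.expect_const univ_nonempty]
      _ ≤ e := by
          have := hρ2 n
          linarith
  have hav : (𝔼 x : G, 𝔼 y : G, ML H f₁ x y ^ c) - (1 + c) * e - e ≤
      𝔼 x : G, 𝔼 y : G, TL H f₁ x y := by
    have h1 : 𝔼 x : G, 𝔼 y : G,
        (ML H f₁ x y ^ c - (1 + c) * e - (bad P x + bad P y + bad P (x + y))) ≤
        𝔼 x : G, 𝔼 y : G, TL H f₁ x y :=
      Finset.expect_le_expect (fun x _ => Finset.expect_le_expect (fun y _ => hloc x y))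
    have h2 : 𝔼 x : G, 𝔼 y : G,
        (ML H f₁ x y ^ c - (1 + c) * e - (bad P x + bad P y + bad P (x + y))) =
        (𝔼 x : G, 𝔼 y : G, ML H f₁ x y ^ c) - (1 + c) * e -
          𝔼 x : G, 𝔼 y : G, (bad P x + bad P y + bad P (x + y)) := by
      simp only [Finset.expect_sub_distrib]
      rw [Finset.expect_const univ_nonempty, Finset.expect_const univ_nonempty]
    rw [h2] at h1
    linarith
  have hjen := rpow_two hc1 (fun x y => ML H f₁ x y) (fun x y => (hML x y).1)
  have hα16 : α ^ c ≤ (𝔼 x : G, 𝔼 y : G, ML H f₁ x y) ^ c := by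
    rw [← hMLav, c3]
    exact Real.rpow_le_rpow hα.le hαf (by linarith)
  have hr := (abs_le.mp hrep).1
  rw [hTH] at hr
  have h20 : (10 + c) * e = (1 + c) * e + e + 4 * (e + e) := by ring
  linarith

end Pool.Agent.H31.SQ
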