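import Pool.Agent.H31.SQ.DefsC
import Pool.Agent.H31.SQ.MainC

/-!
# The label inequality with exponent `10`
-/

namespace Pool.Agent.H31.SQ

open Finset Pool.Agent.H36Sq Pool.Agent.H81.SQ
open scoped BigOperators ComplexConjugate

namespace LI10

section shift

variable {K : Type} [AddCommGroup K] [Fintype K]

theorem expect_shift (f : K → ℝ) (s : K) : 𝔼 x, f (x + s) = 𝔼 x, f x :=
  Fintype.expect_equiv (Equiv.addRight s) _ _ (fun _ => rfl)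

/-- The fourfold convolution identity. -/
theorem shift4 (hK : ∀ x : K, x + x = 0) (P Q R S : K → ℝ) (s t : K) :
    𝔼 η, (𝔼 a, P a * Q (η + s + a)) * (𝔼 b, R b * S (η + t + b)) =
      𝔼 a, 𝔼 b, 𝔼 c, P a * R b * Q c * S (a + b + c + s + t) := by
  have h1 : ∀ η, (𝔼 a, P a * Q (η + s + a)) * (𝔼 b, R b * S (η + t + b)) =
      𝔼 a, 𝔼 b, P a * R b * Q (η + s + a) * S (η + t + b) := by
    intro η
    rw [Finset.expect_mul]
    refine Finset.expect_congr rfl (fun a _ => ?_)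
    rw [Finset.mul_expect]
    refine Finset.expect_congr rfl (fun b _ => ?_)
    ring
  rw [Finset.expect_congr rfl (fun η _ => h1 η), Finset.expect_comm]
  refine Finset.expect_congr rfl (fun a _ => ?_)
  rw [Finset.expect_comm]
  refine Finset.expect_congr rfl (fun b _ => ?_)
  have h2 := expect_shift (fun η => P a * R b * Q (η + s + a) * S (η + t + b)) (s + a)
  rw [← h2]
  refine Finset.expect_congr rfl (fun c _ => ?_)
  have e1 : c + (s + a) + s + a = c := by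
    have : c + (s + a) + s + a = c + (s + s) + (a + a) := by abel
    rw [this, hK, hK]; simp
  have e2 : c + (s + a) + t + b = a + b + c + s + t := by abel
  simp only [e1, e2]

theorem swap2 (hK : ∀ x : K, x + x = 0) (Q S : K → ℝ) (u : K) :
    𝔼 c, Q c * S (c + u) = 𝔼 c, Q (c + u) * S c := by
  have h2 := expect_shift (fun c => Q c * S (c + u)) u
  rw [← h2]
  refine Finset.expect_congr rfl (fun c _ => ?_)
  have e1 : c + u + u = c := by rw [add_assoc, hK]; simp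
  simp only [e1]

theorem expect_conv (P Q : K → ℝ) (s : K) :
    𝔼 μ, 𝔼 a, P a * Q (μ + s + a) = (𝔼 a, P a) * 𝔼 b, Q b := by
  rw [Finset.expect_comm, Finset.expect_mul]
  refine Finset.expect_congr rfl (fun a _ => ?_)
  rw [Finset.mul_expect]
  have h2 := expect_shift (fun μ => P a * Q μ) (s + a)
  rw [← h2]
  refine Finset.expect_congr rfl (fun c _ => ?_)
  simp only [add_assoc]

/-- Cauchy-Schwarz for one convolution. -/
theorem conv_le (P Q : K → ℝ) (x y : ℝ) (hP : ∀ a, 0 ≤ P a ∧ P a ≤ 1)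
    (hQ : ∀ a, 0 ≤ Q a ∧ Q a ≤ 1) (hx : 0 ≤ x) (hy : 0 ≤ y) (hPx : 𝔼 a, P a = x ^ 2)
    (hQy : 𝔼 a, Q a = y ^ 2) (u : K) : 𝔼 a, P a * Q (u + a) ≤ x * y := by
  have h1 : (𝔼 a, P a * Q (u + a)) ^ 2 ≤ (𝔼 a, P a ^ 2) * 𝔼 a, Q (u + a) ^ 2 :=
    Finset.expect_mul_sq_le_sq_mul_sq _ _ _
  have h2 : 𝔼 a, P a ^ 2 ≤ x ^ 2 := by
    rw [← hPx]
    exact Finset.expect_le_expect (fun a _ => by nlinarith [(hP a).1, (hP a).2])
  have h3 : 𝔼 a, Q (u + a) ^ 2 ≤ y ^ 2 := by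
    rw [← hQy]
    have h4 : 𝔼 a, Q (u + a) ^ 2 = 𝔼 a, Q a ^ 2 :=
      Fintype.expect_equiv (Equiv.addLeft u) _ _ (fun _ => rfl)
    rw [h4]
    exact Finset.expect_le_expect (fun a _ => by nlinarith [(hQ a).1, (hQ a).2])
  have h5 : (𝔼 a, P a * Q (u + a)) ^ 2 ≤ (x * y) ^ 2 := by
    refine le_trans h1 ?_
    rw [mul_pow]
    refine mul_le_mul h2 h3 ?_ (by positivity)
    exact Finset.expect_nonneg (fun a _ => sq_nonneg _)
  exact le_of_sq_le_sq h5 (by positivity)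

end shift

/-- Jensen for squares, weighted. -/
theorem jensen {I : Type} [Fintype I] (w x : I → ℝ) (hw : ∀ i, 0 ≤ w i) (hw1 : ∑ i, w i = 1) :
    (∑ i, w i * x i) ^ 2 ≤ ∑ i, w i * x i ^ 2 := by
  have h := Finset.sum_sq_le_sum_mul_sum_of_sq_le_mul (Finset.univ : Finset I)
    (r := fun i => w i * x i) (f := w) (g := fun i => w i * x i ^ 2) (fun i _ => hw i)
    (fun i _ => mul_nonneg (hw i) (sq_nonneg _)) (fun i _ => le_of_eq (by ring))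
  rw [hw1, one_mul] at h
  exact h

/-- The collapse inequality. -/
theorem coll2 {Ω A : Type} [Fintype Ω] [Fintype A] (w : Ω → ℝ) (p : A → ℝ)
    (U V D : Ω → A → ℝ) (hw : ∀ i, 0 ≤ w i) (hw1 : ∑ i, w i = 1) (hp : ∀ i, 0 ≤ p i)
    (hU : ∀ i a, 0 ≤ U i a) (hV : ∀ i a, 0 ≤ V i a)
    (h : ∀ i a, D i a ^ 2 ≤ U i a * V i a) :
    (∑ i, w i * ∑ a, p a * D i a) ^ 2 ≤
      ∑ i, w i * ((∑ a, p a * U i a) * (∑ a, p a * V i a)) := by
  refine le_trans (jensen w _ hw hw1) ?_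
  refine Finset.sum_le_sum (fun i _ => mul_le_mul_of_nonneg_left ?_ (hw i))
  refine Finset.sum_sq_le_sum_mul_sum_of_sq_le_mul (Finset.univ : Finset A)
    (fun a _ => mul_nonneg (hp a) (hU i a))
    (fun a _ => mul_nonneg (hp a) (hV i a)) (fun a _ => ?_)
  have h1 := mul_le_mul_of_nonneg_left (h i a) (mul_nonneg (hp a) (hp a))
  nlinarith [h1]

section sums

variable {A : Type} [Fintype A]

theorem sum_swap (f : A → A → A → A → A → A → ℝ) :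
    ∑ X, ∑ X', ∑ Y, ∑ Y', ∑ Z, ∑ Z', f X X' Y Y' Z Z' =
      ∑ Y, ∑ Y', ∑ Z, ∑ Z', ∑ X, ∑ X', f X X' Y Y' Z Z' := by
  calc ∑ X, ∑ X', ∑ Y, ∑ Y', ∑ Z, ∑ Z', f X X' Y Y' Z Z'
      = ∑ a : A × A, ∑ b : A × A × A × A, f a.1 a.2 b.1 b.2.1 b.2.2.1 b.2.2.2 := by
        simp only [Fintype.sum_prod_type]
    _ = ∑ b : A × A × A × A, ∑ a : A × A, f a.1 a.2 b.1 b.2.1 b.2.2.1 b.2.2.2 :=
        Finset.sum_comm
    _ = _ := by simp only [Fintype.sum_prod_type]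

theorem sum_swap2 (f : A → A → A → A → ℝ) :
    ∑ Y, ∑ Y', ∑ Z, ∑ Z', f Y Y' Z Z' = ∑ Z, ∑ Z', ∑ Y, ∑ Y', f Y Y' Z Z' := by
  calc ∑ Y, ∑ Y', ∑ Z, ∑ Z', f Y Y' Z Z'
      = ∑ a : A × A, ∑ b : A × A, f a.1 a.2 b.1 b.2 := by
        simp only [Fintype.sum_prod_type]
    _ = ∑ b : A × A, ∑ a : A × A, f a.1 a.2 b.1 b.2 := Finset.sum_comm
    _ = _ := by simp only [Fintype.sum_prod_type]

end sums

section rect

variable {A K : Type} [Fintype A] [AddCommGroup K] [Fintype K]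

/-- The rectangle form. -/
noncomputable def Rf (q r : A → ℝ) (τ : A → K) (h : A → A → K → ℝ) : ℝ :=
  ∑ Y, ∑ Y', ∑ Z, ∑ Z', q Y * q Y' * r Z * r Z' *
    𝔼 a, 𝔼 b, 𝔼 c, h Y Z a * h Y Z' b * h Y' Z' c * h Y' Z (a + b + c + τ Y + τ Y' + τ Z + τ Z')

theorem expect_w (f : K → ℝ) : 𝔼 x, f x = ∑ x, (1 / (Fintype.card K : ℝ)) * f x := by
  rw [Fintype.expect_eq_sum_div_card, ← Finset.mul_sum]
  ring

theorem wsum : ∑ _x : K, (1 / (Fintype.card K : ℝ)) = 1 := by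
  have : (Fintype.card K : ℝ) ≠ 0 := by exact_mod_cast Fintype.card_ne_zero
  simp [Finset.card_univ, this]

theorem rect_eq (hK : ∀ x : K, x + x = 0) (q r : A → ℝ) (τ : A → K) (h : A → A → K → ℝ) :
    Rf q r τ h = ∑ j : A × A × K, (r j.1 * r j.2.1 * (1 / (Fintype.card K : ℝ))) *
      ((∑ Y, q Y * 𝔼 a, h Y j.1 a * h Y j.2.1 (j.2.2 + τ Y + a)) *
        (∑ Y', q Y' * 𝔼 b, h Y' j.2.1 b * h Y' j.1 (j.2.2 + (τ Y' + τ j.1 + τ j.2.1) + b))) := by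
  unfold Rf
  rw [sum_swap2]
  simp only [Fintype.sum_prod_type]
  refine Finset.sum_congr rfl (fun Z _ => Finset.sum_congr rfl (fun Z' _ => ?_))
  have h1 : ∀ η : K, r Z * r Z' * (1 / (Fintype.card K : ℝ)) *
      ((∑ Y, q Y * 𝔼 a, h Y Z a * h Y Z' (η + τ Y + a)) *
        (∑ Y', q Y' * 𝔼 b, h Y' Z' b * h Y' Z (η + (τ Y' + τ Z + τ Z') + b))) =
      ∑ Y, ∑ Y', q Y * q Y' * r Z * r Z' * ((1 / (Fintype.card K : ℝ)) *
        ((𝔼 a, h Y Z a * h Y Z' (η + τ Y + a)) *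
          (𝔼 b, h Y' Z' b * h Y' Z (η + (τ Y' + τ Z + τ Z') + b)))) := by
    intro η
    rw [Finset.sum_mul_sum, Finset.mul_sum]
    refine Finset.sum_congr rfl (fun Y _ => ?_)
    rw [Finset.mul_sum]
    refine Finset.sum_congr rfl (fun Y' _ => ?_)
    ring
  symm
  rw [Finset.sum_congr rfl (fun η _ => h1 η), Finset.sum_comm]
  refine Finset.sum_congr rfl (fun Y _ => ?_)
  rw [Finset.sum_comm]
  refine Finset.sum_congr rfl (fun Y' _ => ?_)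
  rw [← Finset.mul_sum, ← expect_w, shift4 hK]
  congr 1
  refine Finset.expect_congr rfl (fun a _ => ?_)
  rw [Finset.expect_comm]
  refine Finset.expect_congr rfl (fun c _ => ?_)
  refine Finset.expect_congr rfl (fun b _ => ?_)
  have e1 : a + b + c + τ Y + (τ Y' + τ Z + τ Z') = a + c + b + τ Y + τ Y' + τ Z + τ Z' := by
    abel
  rw [e1]
  ring

/-- Third step: two functions on a row. -/
theorem row_eq (hK : ∀ x : K, x + x = 0) (r : A → ℝ) (τ : A → K) (h : A → K → ℝ) (u : A → ℝ)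
    (t : K) :
    ∑ Z, ∑ Z', r Z * r Z' * 𝔼 η, (𝔼 a, h Z a * h Z' (η + t + a)) *
        (𝔼 b, h Z' b * h Z (η + (t + τ Z + τ Z') + b)) * (u Z * u Z') =
      𝔼 μ, (∑ Z, r Z * (u Z * 𝔼 a, h Z a * h Z (μ + τ Z + a))) ^ 2 := by
  have h1 : ∀ μ, (∑ Z, r Z * (u Z * 𝔼 a, h Z a * h Z (μ + τ Z + a))) ^ 2 =
      ∑ Z, ∑ Z', (r Z * r Z' * (u Z * u Z')) * ((𝔼 a, h Z a * h Z (μ + τ Z + a)) *
        (𝔼 b, h Z' b * h Z' (μ + τ Z' + b))) := by
    intro μ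
    rw [sq, Finset.sum_mul_sum]
    refine Finset.sum_congr rfl (fun Z _ => Finset.sum_congr rfl (fun Z' _ => ?_))
    ring
  rw [Finset.expect_congr rfl (fun μ _ => h1 μ), Finset.expect_sum_comm]
  refine Finset.sum_congr rfl (fun Z _ => ?_)
  rw [Finset.expect_sum_comm]
  refine Finset.sum_congr rfl (fun Z' _ => ?_)
  rw [← Finset.mul_expect, ← Finset.expect_mul, shift4 hK, shift4 hK]
  have h2 : (𝔼 a, 𝔼 b, 𝔼 c, h Z a * h Z' b * h Z' c * h Z (a + b + c + t + (t + τ Z + τ Z'))) =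
      𝔼 a, 𝔼 b, 𝔼 c, h Z a * h Z' b * h Z c * h Z' (a + b + c + τ Z + τ Z') := by
    refine Finset.expect_congr rfl (fun a _ => Finset.expect_congr rfl (fun b _ => ?_))
    have h3 := swap2 hK (fun c => h Z' c) (fun c => h Z c) (a + b + τ Z + τ Z')
    have h4 : (𝔼 c, h Z a * h Z' b * h Z' c * h Z (a + b + c + t + (t + τ Z + τ Z'))) =
        (h Z a * h Z' b) * 𝔼 c, h Z' c * h Z (c + (a + b + τ Z + τ Z')) := by
      rw [Finset.mul_expect]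
      refine Finset.expect_congr rfl (fun c _ => ?_)
      have e1 : a + b + c + t + (t + τ Z + τ Z') = c + (a + b + τ Z + τ Z') + (t + t) := by abel
      rw [e1, hK, add_zero]
      ring
    have h5 : (𝔼 c, h Z a * h Z' b * h Z c * h Z' (a + b + c + τ Z + τ Z')) =
        (h Z a * h Z' b) * 𝔼 c, h Z' (c + (a + b + τ Z + τ Z')) * h Z c := by
      rw [Finset.mul_expect]
      refine Finset.expect_congr rfl (fun c _ => ?_)
      have e1 : a + b + c + τ Z + τ Z' = c + (a + b + τ Z + τ Z') := by abel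
      rw [e1]
      ring
    rw [h4, h5, h3]
  rw [h2]
  ring

/-- The rectangle inequality. -/
theorem rect_bound (hK : ∀ x : K, x + x = 0) (q r : A → ℝ) (τ : A → K) (F : A → A → K → ℝ)
    (g : A → A → ℝ) (hq : ∀ i, 0 ≤ q i) (hq1 : ∑ i, q i = 1) (hr : ∀ i, 0 ≤ r i)
    (hr1 : ∑ i, r i = 1) (hF : ∀ i j m, 0 ≤ F i j m ∧ F i j m ≤ 1) (hg : ∀ i j, 0 ≤ g i j)
    (hgF : ∀ i j, 𝔼 m, F i j m = g i j ^ 4) :
    (∑ Y, ∑ Z, q Y * r Z * g Y Z ^ 5) ^ 4 ≤ Rf q r τ (fun Y Z m => F Y Z m / g Y Z) := by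
  set h : A → A → K → ℝ := fun Y Z m => F Y Z m / g Y Z with hh
  have hh0 : ∀ Y Z m, 0 ≤ h Y Z m := fun Y Z m => div_nonneg (hF _ _ _).1 (hg _ _)
  -- the two convolutions
  have hconv : ∀ Y Z Z' (u : K), 𝔼 a, h Y Z a * h Y Z' (u + a) ≤ g Y Z * g Y Z' := by
    intro Y Z Z' u
    have h1 := conv_le (F Y Z) (F Y Z') (g Y Z ^ 2) (g Y Z' ^ 2) (hF Y Z) (hF Y Z')
      (sq_nonneg _) (sq_nonneg _) (by rw [hgF]; ring) (by rw [hgF]; ring) u
    have h2 : 𝔼 a, h Y Z a * h Y Z' (u + a) =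
        (𝔼 a, F Y Z a * F Y Z' (u + a)) / (g Y Z * g Y Z') := by
      rw [Finset.expect_div]
      refine Finset.expect_congr rfl (fun a _ => ?_)
      simp only [hh]
      rw [div_mul_div_comm]
    rw [h2]
    rcases eq_or_lt_of_le (mul_nonneg (hg Y Z) (hg Y Z')) with h0 | h0
    · rw [← h0]; simp
    · rw [div_le_iff₀ h0]
      refine le_trans h1 (le_of_eq (by ring))
  rw [rect_eq hK]
  have hconv0 : ∀ Y Z Z' (u : K), 0 ≤ 𝔼 a, h Y Z a * h Y Z' (u + a) := fun Y Z Z' u =>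
    Finset.expect_nonneg (fun a _ => mul_nonneg (hh0 _ _ _) (hh0 _ _ _))
  have hw0 : ∀ j : A × A × K, 0 ≤ r j.1 * r j.2.1 * (1 / (Fintype.card K : ℝ)) := fun j =>
    mul_nonneg (mul_nonneg (hr _) (hr _)) (by positivity)
  have hw1 : ∑ j : A × A × K, r j.1 * r j.2.1 * (1 / (Fintype.card K : ℝ)) = 1 := by
    simp only [Fintype.sum_prod_type]
    simp_rw [← Finset.mul_sum, wsum, mul_one]
    simp_rw [← Finset.mul_sum, hr1, mul_one]
    exact hr1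
  have hc := coll2 (fun j : A × A × K => r j.1 * r j.2.1 * (1 / (Fintype.card K : ℝ))) q
    (fun j Y => 𝔼 a, h Y j.1 a * h Y j.2.1 (j.2.2 + τ Y + a))
    (fun j Y => 𝔼 b, h Y j.2.1 b * h Y j.1 (j.2.2 + (τ Y + τ j.1 + τ j.2.1) + b))
    (fun j Y => (𝔼 a, h Y j.1 a * h Y j.2.1 (j.2.2 + τ Y + a)) *
      (𝔼 b, h Y j.2.1 b * h Y j.1 (j.2.2 + (τ Y + τ j.1 + τ j.2.1) + b)) *
        ((g Y j.1)⁻¹ * (g Y j.2.1)⁻¹)) hw0 hw1 hq
    (fun j Y => hconv0 _ _ _ _) (fun j Y => hconv0 _ _ _ _) (by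
      intro j Y
      set a1 := 𝔼 a, h Y j.1 a * h Y j.2.1 (j.2.2 + τ Y + a)
      set b1 := 𝔼 b, h Y j.2.1 b * h Y j.1 (j.2.2 + (τ Y + τ j.1 + τ j.2.1) + b)
      have ha0 : 0 ≤ a1 := hconv0 _ _ _ _
      have hb0 : 0 ≤ b1 := hconv0 _ _ _ _
      have ha1 : a1 ≤ g Y j.1 * g Y j.2.1 := hconv _ _ _ _
      have hb1 : b1 ≤ g Y j.1 * g Y j.2.1 := by
        have := hconv Y j.2.1 j.1 (j.2.2 + (τ Y + τ j.1 + τ j.2.1))
        rw [mul_comm (g Y j.2.1)] at this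
        exact this
      rw [← mul_inv]
      rcases eq_or_lt_of_le (mul_nonneg (hg Y j.1) (hg Y j.2.1)) with h0 | h0
      · rw [← h0]; simp; positivity
      · have h2 : a1 * b1 ≤ (g Y j.1 * g Y j.2.1) ^ 2 := by
          rw [sq]; exact mul_le_mul ha1 hb1 hb0 h0.le
        rw [mul_pow, inv_pow, ← div_eq_mul_inv, div_le_iff₀ (by positivity), sq]
        exact mul_le_mul_of_nonneg_left h2 (mul_nonneg ha0 hb0))
  refine le_trans ?_ hc
  have hp4 : ∀ x : ℝ, x ^ 4 = (x ^ 2) ^ 2 := fun x => by ring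
  rw [hp4]
  refine pow_le_pow_left₀ (sq_nonneg _) ?_ 2
  -- third step
  have h3 : ∑ j : A × A × K, (r j.1 * r j.2.1 * (1 / (Fintype.card K : ℝ))) *
      ∑ Y, q Y * ((𝔼 a, h Y j.1 a * h Y j.2.1 (j.2.2 + τ Y + a)) *
      (𝔼 b, h Y j.2.1 b * h Y j.1 (j.2.2 + (τ Y + τ j.1 + τ j.2.1) + b)) *
        ((g Y j.1)⁻¹ * (g Y j.2.1)⁻¹)) =
      ∑ Y, q Y * 𝔼 μ, (∑ Z, r Z * ((g Y Z)⁻¹ * 𝔼 a, h Y Z a * h Y Z (μ + τ Z + a))) ^ 2 := by
    have h4 : ∀ Y, 𝔼 μ, (∑ Z, r Z * ((g Y Z)⁻¹ * 𝔼 a, h Y Z a * h Y Z (μ + τ Z + a))) ^ 2 =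
        ∑ j : A × A × K, (r j.1 * r j.2.1 * (1 / (Fintype.card K : ℝ))) *
          ((𝔼 a, h Y j.1 a * h Y j.2.1 (j.2.2 + τ Y + a)) *
            (𝔼 b, h Y j.2.1 b * h Y j.1 (j.2.2 + (τ Y + τ j.1 + τ j.2.1) + b)) *
              ((g Y j.1)⁻¹ * (g Y j.2.1)⁻¹)) := by
      intro Y
      rw [← row_eq hK r τ (h Y) (fun Z => (g Y Z)⁻¹) (τ Y)]
      simp only [Fintype.sum_prod_type]
      refine Finset.sum_congr rfl (fun Z _ => Finset.sum_congr rfl (fun Z' _ => ?_))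
      rw [expect_w, Finset.mul_sum]
      refine Finset.sum_congr rfl (fun η _ => ?_)
      ring
    simp_rw [Finset.mul_sum, h4]
    rw [Finset.sum_comm]
    refine Finset.sum_congr rfl (fun Y _ => ?_)
    rw [Finset.mul_sum]
    refine Finset.sum_congr rfl (fun j _ => ?_)
    ring
  rw [h3]
  -- Jensen
  have h5 := jensen (fun i : A × K => q i.1 * (1 / (Fintype.card K : ℝ)))
    (fun i => ∑ Z, r Z * ((g i.1 Z)⁻¹ * 𝔼 a, h i.1 Z a * h i.1 Z (i.2 + τ Z + a)))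
    (fun i => mul_nonneg (hq _) (by positivity)) (by
      simp only [Fintype.sum_prod_type]
      simp_rw [← Finset.mul_sum, wsum, mul_one]
      exact hq1)
  have h6 : ∑ i : A × K, q i.1 * (1 / (Fintype.card K : ℝ)) *
      (∑ Z, r Z * ((g i.1 Z)⁻¹ * 𝔼 a, h i.1 Z a * h i.1 Z (i.2 + τ Z + a))) ^ 2 =
      ∑ Y, q Y * 𝔼 μ, (∑ Z, r Z * ((g Y Z)⁻¹ * 𝔼 a, h Y Z a * h Y Z (μ + τ Z + a))) ^ 2 := by
    simp only [Fintype.sum_prod_type]
    refine Finset.sum_congr rfl (fun Y _ => ?_)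
    rw [expect_w, Finset.mul_sum]
    refine Finset.sum_congr rfl (fun μ _ => ?_)
    ring
  rw [h6] at h5
  refine le_trans (le_of_eq ?_) h5
  congr 1
  simp only [Fintype.sum_prod_type]
  refine Finset.sum_congr rfl (fun Y _ => ?_)
  have h7 : ∑ μ, q Y * (1 / (Fintype.card K : ℝ)) *
      ∑ Z, r Z * ((g Y Z)⁻¹ * 𝔼 a, h Y Z a * h Y Z (μ + τ Z + a)) =
      q Y * ∑ Z, r Z * ((g Y Z)⁻¹ * 𝔼 μ, 𝔼 a, h Y Z a * h Y Z (μ + τ Z + a)) := by
    have h8 : ∀ Z, 𝔼 μ, 𝔼 a, h Y Z a * h Y Z (μ + τ Z + a) =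
        ∑ μ, (1 / (Fintype.card K : ℝ)) * 𝔼 a, h Y Z a * h Y Z (μ + τ Z + a) := fun Z =>
      expect_w _
    simp_rw [h8, Finset.mul_sum]
    rw [Finset.sum_comm]
    refine Finset.sum_congr rfl (fun Z _ => Finset.sum_congr rfl (fun μ _ => ?_))
    ring
  rw [h7, Finset.mul_sum]
  refine Finset.sum_congr rfl (fun Z _ => ?_)
  rw [expect_conv]
  have h9 : 𝔼 a, h Y Z a = g Y Z ^ 3 := by
    simp only [hh]
    rw [← Finset.expect_div, hgF]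
    rcases eq_or_ne (g Y Z) 0 with h0 | h0
    · rw [h0]; simp
    · field_simp
  rw [h9]
  rcases eq_or_ne (g Y Z) 0 with h0 | h0
  · rw [h0]; simp
  · field_simp

end rect

section full

variable {A K : Type} [Fintype A] [AddCommGroup K] [Fintype K]

theorem full_eq (hK : ∀ x : K, x + x = 0) (p q r : A → ℝ) (τ : A → K)
    (F : A → A → A → K → ℝ) :
    (∑ X : A, ∑ X' : A, ∑ Y : A, ∑ Y' : A, ∑ Z : A, ∑ Z' : A,
      p X * p X' * q Y * q Y' * r Z * r Z' *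
      𝔼 m₁ : K, 𝔼 m₂ : K, 𝔼 m₃ : K,
        F X Y Z m₁ * F X' Y Z' m₂ * F X Y' Z' m₃ *
          F X' Y' Z (m₁ + m₂ + m₃ + τ X + τ X' + τ Y + τ Y' + τ Z + τ Z')) =
      ∑ i : A × A × A × A × K,
        (q i.1 * q i.2.1 * r i.2.2.1 * r i.2.2.2.1 * (1 / (Fintype.card K : ℝ))) *
        ((∑ X, p X * 𝔼 a, F X i.1 i.2.2.1 a * F X i.2.1 i.2.2.2.1 (i.2.2.2.2 + τ X + a)) *
          (∑ X', p X' * 𝔼 b, F X' i.1 i.2.2.2.1 b * F X' i.2.1 i.2.2.1
            (i.2.2.2.2 + (τ X' + τ i.1 + τ i.2.1 + τ i.2.2.1 + τ i.2.2.2.1) + b))) := by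
  rw [sum_swap]
  simp only [Fintype.sum_prod_type]
  refine Finset.sum_congr rfl (fun Y _ => Finset.sum_congr rfl (fun Y' _ =>
    Finset.sum_congr rfl (fun Z _ => Finset.sum_congr rfl (fun Z' _ => ?_))))
  have h1 : ∀ η : K, q Y * q Y' * r Z * r Z' * (1 / (Fintype.card K : ℝ)) *
      ((∑ X, p X * 𝔼 a, F X Y Z a * F X Y' Z' (η + τ X + a)) *
        (∑ X', p X' * 𝔼 b, F X' Y Z' b * F X' Y' Z
          (η + (τ X' + τ Y + τ Y' + τ Z + τ Z') + b))) =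
      ∑ X, ∑ X', p X * p X' * q Y * q Y' * r Z * r Z' * ((1 / (Fintype.card K : ℝ)) *
        ((𝔼 a, F X Y Z a * F X Y' Z' (η + τ X + a)) *
          (𝔼 b, F X' Y Z' b * F X' Y' Z (η + (τ X' + τ Y + τ Y' + τ Z + τ Z') + b)))) := by
    intro η
    rw [Finset.sum_mul_sum, Finset.mul_sum]
    refine Finset.sum_congr rfl (fun X _ => ?_)
    rw [Finset.mul_sum]
    refine Finset.sum_congr rfl (fun X' _ => ?_)
    ring
  symm
  rw [Finset.sum_congr rfl (fun η _ => h1 η), Finset.sum_comm]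
  refine Finset.sum_congr rfl (fun X _ => ?_)
  rw [Finset.sum_comm]
  refine Finset.sum_congr rfl (fun X' _ => ?_)
  rw [← Finset.mul_sum, ← expect_w, shift4 hK]
  congr 1
  refine Finset.expect_congr rfl (fun a _ => Finset.expect_congr rfl (fun b _ =>
    Finset.expect_congr rfl (fun c _ => ?_)))
  have e1 : a + b + c + τ X + (τ X' + τ Y + τ Y' + τ Z + τ Z') =
      a + b + c + τ X + τ X' + τ Y + τ Y' + τ Z + τ Z' := by abel
  rw [e1]

theorem full_bound (hK : ∀ x : K, x + x = 0) (p q r : A → ℝ) (τ : A → K)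
    (F : A → A → A → K → ℝ) (g : A → A → A → ℝ)
    (hp : ∀ i, 0 ≤ p i) (hp1 : ∑ i, p i = 1) (hq : ∀ i, 0 ≤ q i) (hq1 : ∑ i, q i = 1)
    (hr : ∀ i, 0 ≤ r i) (hr1 : ∑ i, r i = 1)
    (hF : ∀ i j l m, 0 ≤ F i j l m ∧ F i j l m ≤ 1) (hg : ∀ i j l, 0 ≤ g i j l)
    (hgF : ∀ i j l, 𝔼 m, F i j l m = g i j l ^ 4) :
    (∑ X, p X * ∑ Y, ∑ Z, q Y * r Z * g X Y Z ^ 5) ^ 8 ≤
    ∑ X : A, ∑ X' : A, ∑ Y : A, ∑ Y' : A, ∑ Z : A, ∑ Z' : A,
      p X * p X' * q Y * q Y' * r Z * r Z' *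
      𝔼 m₁ : K, 𝔼 m₂ : K, 𝔼 m₃ : K,
        F X Y Z m₁ * F X' Y Z' m₂ * F X Y' Z' m₃ *
          F X' Y' Z (m₁ + m₂ + m₃ + τ X + τ X' + τ Y + τ Y' + τ Z + τ Z') := by
  rw [full_eq hK]
  set h : A → A → A → K → ℝ := fun X Y Z m => F X Y Z m / g X Y Z with hh
  have hF0 : ∀ X Y Z Y' Z' (u : K), 0 ≤ 𝔼 a, F X Y Z a * F X Y' Z' (u + a) :=
    fun X Y Z Y' Z' u => Finset.expect_nonneg (fun a _ => mul_nonneg (hF _ _ _ _).1 (hF _ _ _ _).1)
  have hdiv : ∀ X Y Z Y' Z' (u : K), 𝔼 a, h X Y Z a * h X Y' Z' (u + a) =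
      (𝔼 a, F X Y Z a * F X Y' Z' (u + a)) / (g X Y Z * g X Y' Z') := by
    intro X Y Z Y' Z' u
    rw [Finset.expect_div]
    refine Finset.expect_congr rfl (fun a _ => ?_)
    simp only [hh]
    rw [div_mul_div_comm]
  have hsq : ∀ X Y Z Y' Z' (u : K), (𝔼 a, h X Y Z a * h X Y' Z' (u + a)) ^ 2 ≤
      𝔼 a, F X Y Z a * F X Y' Z' (u + a) := by
    intro X Y Z Y' Z' u
    have h1 := conv_le (F X Y Z) (F X Y' Z') (g X Y Z ^ 2) (g X Y' Z' ^ 2) (hF X Y Z)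
      (hF X Y' Z') (sq_nonneg _) (sq_nonneg _) (by rw [hgF]; ring) (by rw [hgF]; ring) u
    have h0 := hF0 X Y Z Y' Z' u
    rw [hdiv]
    set c := 𝔼 a, F X Y Z a * F X Y' Z' (u + a)
    rcases eq_or_lt_of_le (mul_nonneg (hg X Y Z) (hg X Y' Z')) with h2 | h2
    · rw [← h2]; simp; exact h0
    · rw [div_pow, div_le_iff₀ (by positivity), sq c]
      refine mul_le_mul_of_nonneg_left ?_ h0
      refine le_trans h1 (le_of_eq (by ring))
  have hw0 : ∀ i : A × A × A × A × K,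
      0 ≤ q i.1 * q i.2.1 * r i.2.2.1 * r i.2.2.2.1 * (1 / (Fintype.card K : ℝ)) := fun i =>
    mul_nonneg (mul_nonneg (mul_nonneg (mul_nonneg (hq _) (hq _)) (hr _)) (hr _)) (by positivity)
  have hw1 : ∑ i : A × A × A × A × K,
      q i.1 * q i.2.1 * r i.2.2.1 * r i.2.2.2.1 * (1 / (Fintype.card K : ℝ)) = 1 := by
    simp only [Fintype.sum_prod_type]
    simp_rw [← Finset.mul_sum, wsum, mul_one]
    simp_rw [← Finset.mul_sum, hr1, mul_one]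
    simp_rw [← Finset.mul_sum, hr1, mul_one]
    simp_rw [← Finset.mul_sum, hq1, mul_one]
    exact hq1
  have hc := coll2 (fun i : A × A × A × A × K =>
      q i.1 * q i.2.1 * r i.2.2.1 * r i.2.2.2.1 * (1 / (Fintype.card K : ℝ))) p
    (fun i X => 𝔼 a, F X i.1 i.2.2.1 a * F X i.2.1 i.2.2.2.1 (i.2.2.2.2 + τ X + a))
    (fun i X => 𝔼 b, F X i.1 i.2.2.2.1 b * F X i.2.1 i.2.2.1
            (i.2.2.2.2 + (τ X + τ i.1 + τ i.2.1 + τ i.2.2.1 + τ i.2.2.2.1) + b))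
    (fun i X => (𝔼 a, h X i.1 i.2.2.1 a * h X i.2.1 i.2.2.2.1 (i.2.2.2.2 + τ X + a)) *
      (𝔼 b, h X i.1 i.2.2.2.1 b * h X i.2.1 i.2.2.1
            (i.2.2.2.2 + (τ X + τ i.1 + τ i.2.1 + τ i.2.2.1 + τ i.2.2.2.1) + b)))
    hw0 hw1 hp (fun i X => hF0 _ _ _ _ _ _) (fun i X => hF0 _ _ _ _ _ _) (by
      intro i X
      rw [mul_pow]
      exact mul_le_mul (hsq _ _ _ _ _ _) (hsq _ _ _ _ _ _) (sq_nonneg _) (hF0 _ _ _ _ _ _))
  refine le_trans ?_ hc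
  have h3 : ∑ i : A × A × A × A × K,
      (q i.1 * q i.2.1 * r i.2.2.1 * r i.2.2.2.1 * (1 / (Fintype.card K : ℝ))) *
      ∑ X, p X * ((𝔼 a, h X i.1 i.2.2.1 a * h X i.2.1 i.2.2.2.1 (i.2.2.2.2 + τ X + a)) *
      (𝔼 b, h X i.1 i.2.2.2.1 b * h X i.2.1 i.2.2.1
            (i.2.2.2.2 + (τ X + τ i.1 + τ i.2.1 + τ i.2.2.1 + τ i.2.2.2.1) + b))) =
      ∑ X, p X * Rf q r τ (h X) := by
    have h4 : ∀ X, Rf q r τ (h X) = ∑ i : A × A × A × A × K,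
        (q i.1 * q i.2.1 * r i.2.2.1 * r i.2.2.2.1 * (1 / (Fintype.card K : ℝ))) *
        ((𝔼 a, h X i.1 i.2.2.1 a * h X i.2.1 i.2.2.2.1 (i.2.2.2.2 + τ X + a)) *
        (𝔼 b, h X i.1 i.2.2.2.1 b * h X i.2.1 i.2.2.1
            (i.2.2.2.2 + (τ X + τ i.1 + τ i.2.1 + τ i.2.2.1 + τ i.2.2.2.1) + b))) := by
      intro X
      unfold Rf
      simp only [Fintype.sum_prod_type]
      refine Finset.sum_congr rfl (fun Y _ => Finset.sum_congr rfl (fun Y' _ =>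
        Finset.sum_congr rfl (fun Z _ => Finset.sum_congr rfl (fun Z' _ => ?_))))
      symm
      have h5 : ∀ η : K, q Y * q Y' * r Z * r Z' * (1 / (Fintype.card K : ℝ)) *
          ((𝔼 a, h X Y Z a * h X Y' Z' (η + τ X + a)) *
          (𝔼 b, h X Y Z' b * h X Y' Z (η + (τ X + τ Y + τ Y' + τ Z + τ Z') + b))) =
          q Y * q Y' * r Z * r Z' * ((1 / (Fintype.card K : ℝ)) *
          ((𝔼 a, h X Y Z a * h X Y' Z' (η + τ X + a)) *
          (𝔼 b, h X Y Z' b * h X Y' Z (η + (τ X + τ Y + τ Y' + τ Z + τ Z') + b)))) :=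
        fun η => by ring
      rw [Finset.sum_congr rfl (fun η _ => h5 η), ← Finset.mul_sum, ← expect_w, shift4 hK]
      congr 1
      refine Finset.expect_congr rfl (fun a _ => Finset.expect_congr rfl (fun b _ =>
        Finset.expect_congr rfl (fun c _ => ?_)))
      have e1 : a + b + c + τ X + (τ X + τ Y + τ Y' + τ Z + τ Z') =
          a + b + c + τ Y + τ Y' + τ Z + τ Z' + (τ X + τ X) := by abel
      rw [e1, hK, add_zero]
    simp_rw [h4, Finset.mul_sum]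
    rw [Finset.sum_comm]
    refine Finset.sum_congr rfl (fun X _ => Finset.sum_congr rfl (fun i _ => ?_))
    ring
  rw [h3]
  have h6 : ∀ X, (∑ Y, ∑ Z, q Y * r Z * g X Y Z ^ 5) ^ 4 ≤ Rf q r τ (h X) := fun X =>
    rect_bound hK q r τ (F X) (g X) hq hq1 hr hr1 (hF X) (hg X) (hgF X)
  set t : A → ℝ := fun X => ∑ Y, ∑ Z, q Y * r Z * g X Y Z ^ 5 with ht
  have ht0 : ∀ X, 0 ≤ t X := fun X => Finset.sum_nonneg (fun Y _ => Finset.sum_nonneg (fun Z _ =>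
    mul_nonneg (mul_nonneg (hq _) (hr _)) (pow_nonneg (hg _ _ _) 5)))
  have hpt : 0 ≤ ∑ X, p X * t X := Finset.sum_nonneg (fun X _ => mul_nonneg (hp _) (ht0 _))
  have j1 := jensen p t hp hp1
  have j2 := jensen p (fun X => t X ^ 2) hp hp1
  have j3 : (∑ X, p X * t X) ^ 4 ≤ ∑ X, p X * Rf q r τ (h X) := by
    calc (∑ X, p X * t X) ^ 4 = ((∑ X, p X * t X) ^ 2) ^ 2 := by ring
      _ ≤ (∑ X, p X * t X ^ 2) ^ 2 := pow_le_pow_left₀ (sq_nonneg _) j1 2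
      _ ≤ ∑ X, p X * (t X ^ 2) ^ 2 := j2
      _ ≤ ∑ X, p X * Rf q r τ (h X) := Finset.sum_le_sum (fun X _ => by
          refine mul_le_mul_of_nonneg_left ?_ (hp X)
          have := h6 X
          rw [← pow_mul]
          exact this)
  calc (∑ X, p X * t X) ^ 8 = ((∑ X, p X * t X) ^ 4) ^ 2 := by ring
    _ ≤ _ := pow_le_pow_left₀ (by positivity) j3 2

end full

end LI10

/-- LI10: the label inequality with exponent `10`. -/
theorem li10 : T_LIc 10 := by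
  intro A _ k p q r τ F hp hp1 hq hq1 hr hr1 hF
  have hK : ∀ x : Fin k → ZMod 2, x + x = 0 := fun x => by
    funext i
    simp only [Pi.add_apply, Pi.zero_apply]
    exact CharTwo.add_self_eq_zero _
  set f : A → A → A → ℝ := fun X Y Z => 𝔼 m : Fin k → ZMod 2, F X Y Z m with hf
  have hf0 : ∀ X Y Z, 0 ≤ f X Y Z := fun X Y Z => Finset.expect_nonneg (fun m _ => (hF _ _ _ _).1)
  set g : A → A → A → ℝ := fun X Y Z => Real.sqrt (Real.sqrt (f X Y Z)) with hg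
  have hg0 : ∀ X Y Z, 0 ≤ g X Y Z := fun X Y Z => Real.sqrt_nonneg _
  have hg4 : ∀ X Y Z, f X Y Z = g X Y Z ^ 4 := by
    intro X Y Z
    have : g X Y Z ^ 4 = (g X Y Z ^ 2) ^ 2 := by ring
    rw [this]
    simp only [hg]
    rw [Real.sq_sqrt (Real.sqrt_nonneg _), Real.sq_sqrt (hf0 _ _ _)]
  have h1 := LI10.full_bound hK p q r τ F g hp hp1 hq hq1 hr hr1 hF hg0
    (fun X Y Z => hg4 X Y Z)
  refine le_trans ?_ h1
  -- power mean
  have h2 := Real.rpow_arith_mean_le_arith_mean_rpow (Finset.univ : Finset (A × A × A))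
    (fun i => p i.1 * q i.2.1 * r i.2.2) (fun i => f i.1 i.2.1 i.2.2)
    (fun i _ => mul_nonneg (mul_nonneg (hp _) (hq _)) (hr _)) (by
      simp only [Fintype.sum_prod_type]
      simp_rw [← Finset.mul_sum, hr1, mul_one]
      simp_rw [← Finset.mul_sum, hq1, mul_one]
      exact hp1) (fun i _ => hf0 _ _ _) (by norm_num : (1 : ℝ) ≤ 5 / 4)
  have h3 : ∑ i : A × A × A, p i.1 * q i.2.1 * r i.2.2 * f i.1 i.2.1 i.2.2 = MM p q r F := by
    simp only [Fintype.sum_prod_type]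
    rfl
  have h4 : ∑ i : A × A × A, p i.1 * q i.2.1 * r i.2.2 * f i.1 i.2.1 i.2.2 ^ ((5 : ℝ) / 4) =
      ∑ X, p X * ∑ Y, ∑ Z, q Y * r Z * g X Y Z ^ 5 := by
    simp only [Fintype.sum_prod_type]
    simp_rw [Finset.mul_sum]
    refine Finset.sum_congr rfl (fun X _ => Finset.sum_congr rfl (fun Y _ =>
      Finset.sum_congr rfl (fun Z _ => ?_)))
    have h5 : f X Y Z ^ ((5 : ℝ) / 4) = g X Y Z ^ 5 := by
      rw [hg4, ← Real.rpow_natCast, ← Real.rpow_natCast, ← Real.rpow_mul (hg0 _ _ _)]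
      norm_num
    rw [h5]
    ring
  rw [h3, h4] at h2
  have hM0 : 0 ≤ MM p q r F := by
    rw [← h3]
    exact Finset.sum_nonneg (fun i _ => mul_nonneg (mul_nonneg (mul_nonneg (hp _) (hq _)) (hr _))
      (hf0 _ _ _))
  have h6 : MM p q r F ^ (10 : ℝ) = (MM p q r F ^ ((5 : ℝ) / 4)) ^ 8 := by
    rw [← Real.rpow_natCast, ← Real.rpow_mul hM0]
    norm_num
  rw [h6]
  exact pow_le_pow_left₀ (Real.rpow_nonneg hM0 _) h2 8

end Pool.Agent.H31.SQ
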